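import Pool.Agent.Helper51_Equitable.Basic

/-!
# Squad EQC: an absolute constant for equitable proper labellings (MP_3faef8_co)

Definitions. Paper: team store EQC_paper.md (also note on the board of MP_3faef8_co).

Vertices of degree at least `D` are high, the others are low.  `c` is the number of cells, the
type B step is `4 * c`, every active vertex gets `4 * c + 11` constant items and `7 * (q_v / c)`
bulk items.  The numbers satisfy `7000 ≤ c` and `2000 * (4 * c + 11) + 6 ≤ D`.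
-/

open SimpleGraph Finset
open Pool.Agent.Helper51_Equitable (edges nbrs vertexSum nb IsEquitableProper Nice)

namespace Pool.Agent.EQC

open Classical in
/-- the number of elements of a finite type with property `p` -/
noncomputable def cnt {α : Type} [Fintype α] (p : α → Prop) : ℕ := (univ.filter p).card

/-- the numbers `c` and `D` are large enough -/
def Big (c D : ℕ) : Prop := 7000 ≤ c ∧ 2000 * (4 * c + 11) + 6 ≤ D

variable {V : Type} [Fintype V]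

/-- degree of `v` -/
noncomputable def dg (G : SimpleGraph V) (v : V) : ℕ := (nbrs G v).card

/-- `v` is high -/
def Hi (G : SimpleGraph V) (D : ℕ) (v : V) : Prop := D ≤ dg G v

/-- `u` and `v` are comparable: adjacent high vertices whose degrees differ by a factor at most 2 -/
def Comp (G : SimpleGraph V) (D : ℕ) (u v : V) : Prop :=
  G.Adj u v ∧ Hi G D u ∧ Hi G D v ∧ dg G u ≤ 2 * dg G v ∧ dg G v ≤ 2 * dg G u

/-- number of comparable neighbours -/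
noncomputable def qn (G : SimpleGraph V) (D : ℕ) (v : V) : ℕ := cnt fun u => Comp G D v u

/-- `M` is a maximal matching of the graph induced on the high vertices -/
structure MaxMat (G : SimpleGraph V) (D : ℕ) (M : Finset (Sym2 V)) : Prop where
  edge : ∀ e ∈ M, e ∈ edges G ∧ ∀ v ∈ e, Hi G D v
  mat : ∀ e ∈ M, ∀ f ∈ M, ∀ v, v ∈ e → v ∈ f → e = f
  max : ∀ u v, Hi G D u → Hi G D v → G.Adj u v → ∃ e ∈ M, u ∈ e ∨ v ∈ e

/-- `Out x v`: the edge `xv` is oriented from the hub `x` to the influenced vertex `v`.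
All edges with a high end and outside `M` are oriented, balanced at every vertex. -/
structure Orient (G : SimpleGraph V) (D : ℕ) (M : Finset (Sym2 V)) (Out : V → V → Prop) : Prop where
  adj : ∀ x v, Out x v → G.Adj x v
  notM : ∀ x v, Out x v → s(x, v) ∉ M
  hi : ∀ x v, Out x v → Hi G D x ∨ Hi G D v
  asymm : ∀ x v, Out x v → ¬ Out v x
  indeg : ∀ v, Hi G D v → dg G v ≤ 2 * cnt (fun x => Out x v) + 4
  outdeg : ∀ v, Hi G D v → dg G v ≤ 2 * cnt (fun x => Out v x) + 4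
  incmp : ∀ v, Hi G D v → qn G D v ≤ 2 * cnt (fun x => Comp G D x v ∧ Out x v) + 2
  lowout : ∀ y, ¬ Hi G D y → 2 * cnt (fun v => Out y v) ≤ cnt (fun v => G.Adj y v ∧ Hi G D v) + 1

/-- `v` is of type L: many low vertices `y` with `Out y v` (super-hub edges) -/
def LT (G : SimpleGraph V) (D : ℕ) (Out : V → V → Prop) (v : V) : Prop :=
  Hi G D v ∧ dg G v ≤ 6 * cnt (fun y => ¬ Hi G D y ∧ Out y v) + 6

/-- the rank: `r0` first, all other vertices by increasing degree -/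
structure Rank (G : SimpleGraph V) (r0 : V) (rk : V → ℕ) : Prop where
  inj : ∀ u v, rk u = rk v → u = v
  first : ∀ v, v ≠ r0 → rk r0 < rk v
  mono : ∀ u v, u ≠ r0 → v ≠ r0 → dg G u < dg G v → rk u < rk v

/-- All data chosen before the items. `Hub x` means `Hi x` and `x ≠ r0`. -/
structure Dat (G : SimpleGraph V) (D : ℕ) where
  M : Finset (Sym2 V)
  Out : V → V → Prop
  r0 : V
  rk : V → ℕ
  /-- terminal of the hub -/
  tau : V → V
  /-- free elements of the list of the hub -/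
  F : V → Finset V
  /-- partner of a free element (`none` = the terminal) -/
  par : V → V → Option V
  mm : MaxMat G D M
  ori : Orient G D M Out
  rank : Rank G r0 rk
  r0_hi : Hi G D r0
  r0_lt : (∃ v, LT G D Out v) → LT G D Out r0
  tau_out : ∀ x, Hi G D x → x ≠ r0 → Out x (tau x)
  tau_top : ∀ x, Hi G D x → x ≠ r0 → Hi G D (tau x) → ∀ v, Out x v → Hi G D v ∧ rk v ≤ rk (tau x)
  F_sub : ∀ x, Hi G D x → x ≠ r0 → ∀ v ∈ F x, Hi G D v ∧ Out x v ∧ v ≠ tau x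
  par_some : ∀ x, Hi G D x → x ≠ r0 → ∀ v ∈ F x, ∀ w, par x v = some w →
    Hi G D w ∧ Out x w ∧ w ≠ tau x ∧ w ∉ F x ∧ rk v < rk w
  par_inj : ∀ x, Hi G D x → x ≠ r0 → ∀ u ∈ F x, ∀ v ∈ F x, par x u = par x v → u = v
  F_cnt : ∀ v, cnt (fun x => Hi G D x ∧ x ≠ r0 ∧ Hi G D v ∧ Out x v ∧ v ≠ tau x) ≤
    2 * cnt (fun x => Hi G D x ∧ x ≠ r0 ∧ v ∈ F x) + 1

/-- active vertices: high, not `r0`, with a comparable neighbour -/
def Act {G : SimpleGraph V} {D : ℕ} (d : Dat G D) (v : V) : Prop :=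
  Hi G D v ∧ v ≠ d.r0 ∧ 1 ≤ qn G D v

/-- The hubs used by the active vertices. -/
structure Sel {G : SimpleGraph V} {D : ℕ} (c : ℕ) (d : Dat G D) where
  /-- normal hubs used by `v` -/
  NF : V → Finset V
  /-- windowed (private) hubs used by `v` -/
  WF : V → Finset V
  NF_sub : ∀ v, ∀ x ∈ NF v, Hi G D x ∧ x ≠ d.r0 ∧ v ∈ d.F x
  WF_sub : ∀ v, ∀ x ∈ WF v, Hi G D x ∧ x ≠ d.r0 ∧ d.tau x = v
  act : ∀ v, ¬ Act d v → NF v = ∅ ∧ WF v = ∅
  card_lt : ∀ v, Act d v → LT G D d.Out v → (NF v).card + (WF v).card = 7 * (qn G D v / c)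
  card_not : ∀ v, Act d v → ¬ LT G D d.Out v →
    (NF v).card + (WF v).card = 4 * c + 11 + 7 * (qn G D v / c)
  few : 8 * (∑ v, (WF v).card) ≤ d.M.card

/-- `x` is a windowed hub -/
def Xw {G : SimpleGraph V} {D : ℕ} {c : ℕ} {d : Dat G D} (s : Sel c d) (x : V) : Prop :=
  x ∈ s.WF (d.tau x)

/-- The edges of `M` used as partners by the windowed hubs. -/
structure Win {G : SimpleGraph V} {D : ℕ} {c : ℕ} {d : Dat G D} (s : Sel c d) where
  mt : V → Bool → Sym2 V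
  mem : ∀ x b, Xw s x → mt x b ∈ d.M ∧ d.r0 ∉ mt x b
  tau : ∀ x, Xw s x → d.tau x ∉ mt x true
  free : ∀ x, Xw s x → ∀ v ∈ d.F x, d.par x v = none → v ∉ mt x false
  inj : ∀ x b x' b', Xw s x → Xw s x' → mt x b = mt x' b' → x = x' ∧ b = b'

/-- The super-hub items. -/
structure Sup {G : SimpleGraph V} {D : ℕ} (c : ℕ) (d : Dat G D) where
  s0 : V
  nx : V → V
  a : V → Fin (4 * c + 11) → V
  b : V → Fin (4 * c + 11) → V
  nx_mem : ∀ t, LT G D d.Out t → t ≠ d.r0 →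
    LT G D d.Out (nx t) ∧ (d.rk t < d.rk (nx t) ∨ (t = s0 ∧ nx t = d.r0))
  nx_inj : ∀ t u, LT G D d.Out t → t ≠ d.r0 → LT G D d.Out u → u ≠ d.r0 → nx t = nx u → t = u
  a_mem : ∀ t j, LT G D d.Out t → t ≠ d.r0 → ¬ Hi G D (a t j) ∧ d.Out (a t j) t
  b_mem : ∀ t j, LT G D d.Out t → t ≠ d.r0 → ¬ Hi G D (b t j) ∧ d.Out (b t j) (nx t)
  a_inj : ∀ t i j, LT G D d.Out t → t ≠ d.r0 → a t i = a t j → i = j
  b_inj : ∀ t i j, LT G D d.Out t → t ≠ d.r0 → b t i = b t j → i = j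
  ab : ∀ t u i j, LT G D d.Out t → t ≠ d.r0 → LT G D d.Out u → u ≠ d.r0 → nx t = u → b t i ≠ a u j
  avoid : ∀ t j, LT G D d.Out t → t ≠ d.r0 →
    ¬ (G.Adj (a t j) (b t j) ∧ dg G (a t j) = 2 ∧ dg G (b t j) = 2)

/-- names of items: normal `(x, v)`, windowed `(x, v)`, super-hub `(t, j)` -/
abbrev Idx (V : Type) (c : ℕ) : Type := (V × V) ⊕ ((V × V) ⊕ (V × Fin (4 * c + 11)))

/-- the name `p` is the name of an item -/
def Ok {G : SimpleGraph V} {D : ℕ} {c : ℕ} {d : Dat G D} (s : Sel c d) : Idx V c → Prop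
  | Sum.inl (x, v) => x ∈ s.NF v
  | Sum.inr (Sum.inl (x, v)) => x ∈ s.WF v
  | Sum.inr (Sum.inr (t, _)) => LT G D d.Out t ∧ Act d t

/-- free edge of the item -/
def E0 {G : SimpleGraph V} {D : ℕ} {c : ℕ} {d : Dat G D} (p : Sup c d) : Idx V c → Sym2 V
  | Sum.inl (x, v) => s(x, v)
  | Sum.inr (Sum.inl (x, v)) => s(x, v)
  | Sum.inr (Sum.inr (t, j)) => s(p.a t j, t)

open Classical in
/-- partner edge of the item -/
noncomputable def E1 {G : SimpleGraph V} {D : ℕ} {c : ℕ} {d : Dat G D} {s : Sel c d} (w : Win s)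
    (p : Sup c d) : Idx V c → Sym2 V
  | Sum.inl (x, v) => match d.par x v with
    | some y => s(x, y)
    | none => if Xw s x then w.mt x false else s(x, d.tau x)
  | Sum.inr (Sum.inl (x, _)) => w.mt x true
  | Sum.inr (Sum.inr (t, j)) => s(p.b t j, p.nx t)

/-- free vertex of the item -/
def Fr {V : Type} {c : ℕ} : Idx V c → V
  | Sum.inl (_, v) => v
  | Sum.inr (Sum.inl (_, v)) => v
  | Sum.inr (Sum.inr (t, _)) => t

/-- **The structure of the items** (output of the structure part, input of everything else). -/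
structure Str (G : SimpleGraph V) (c D : ℕ) (ι : Type) [Fintype ι] where
  e0 : ι → Sym2 V
  e1 : ι → Sym2 V
  fr : ι → V
  rk : V → ℕ
  r0 : V
  s0 : V
  e0_mem : ∀ i, e0 i ∈ edges G
  e1_mem : ∀ i, e1 i ∈ edges G
  e0_inj : ∀ i j, e0 i = e0 j → i = j
  e1_inj : ∀ i j, e1 i = e1 j → i = j
  e01 : ∀ i j, e0 i ≠ e1 j
  fr_mem : ∀ i, fr i ∈ e0 i ∧ fr i ∉ e1 i ∧ fr i ≠ r0
  rk_inj : ∀ u v, rk u = rk v → u = v
  rk_first : ∀ v, v ≠ r0 → rk r0 < rk v
  plus : ∀ u, Hi G D u → u ≠ r0 → cnt (fun i => rk u < rk (fr i) ∧ u ∈ e0 i ∧ u ∉ e1 i) ≤ 2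
  minus : ∀ u, Hi G D u → u ≠ r0 → cnt (fun i => rk u < rk (fr i) ∧ u ∈ e1 i ∧ u ∉ e0 i) ≤ 1
  r0_e0 : ∀ i, r0 ∉ e0 i
  r0_e1 : ∀ i, r0 ∈ e1 i → fr i = s0
  r0_few : cnt (fun i => r0 ∈ e1 i) ≤ 4 * c + 11
  count : ∀ v, Hi G D v → v ≠ r0 → 1 ≤ qn G D v →
    cnt (fun i => fr i = v) = 4 * c + 11 + 7 * (qn G D v / c)
  low : ∀ u w, G.Adj u w → dg G u = dg G w → ¬ Hi G D u → 2 ≤ dg G u →
    ∃ e ∈ edges G, u ∈ e ∧ w ∉ e ∧ (∀ i, e = e0 i → w ∉ e1 i) ∧ (∀ i, e = e1 i → w ∉ e0 i)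
  total : 100 * Fintype.card ι ≤ (edges G).card

/-- Typed items, ready for the flips. Type A (`ty = true`) has step 1, type B step `4 * c`. -/
structure Typ (G : SimpleGraph V) (c D : ℕ) (ι : Type) [Fintype ι] where
  e0 : ι → Sym2 V
  e1 : ι → Sym2 V
  fr : ι → V
  ty : ι → Bool
  rk : V → ℕ
  r0 : V
  s0 : V
  e0_mem : ∀ i, e0 i ∈ edges G
  e1_mem : ∀ i, e1 i ∈ edges G
  e0_inj : ∀ i j, e0 i = e0 j → i = j
  e1_inj : ∀ i j, e1 i = e1 j → i = j
  e01 : ∀ i j, e0 i ≠ e1 j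
  fr_mem : ∀ i, fr i ∈ e0 i ∧ fr i ∉ e1 i ∧ fr i ≠ r0
  rk_inj : ∀ u v, rk u = rk v → u = v
  rk_first : ∀ v, v ≠ r0 → rk r0 < rk v
  plus : ∀ u, Hi G D u → u ≠ r0 → cnt (fun i => rk u < rk (fr i) ∧ u ∈ e0 i ∧ u ∉ e1 i) ≤ 2
  minus : ∀ u, Hi G D u → u ≠ r0 → cnt (fun i => rk u < rk (fr i) ∧ u ∈ e1 i ∧ u ∉ e0 i) ≤ 1
  r0_e0 : ∀ i, r0 ∉ e0 i
  r0_e1 : ∀ i, r0 ∈ e1 i → fr i = s0
  r0_A : cnt (fun i => ty i = true ∧ r0 ∈ e1 i) ≤ 4 * c - 1
  r0_B : cnt (fun i => ty i = false ∧ r0 ∈ e1 i) ≤ 6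
  cA : ∀ v, Hi G D v → v ≠ r0 → 1 ≤ qn G D v → 4 * c - 1 ≤ cnt (fun i => fr i = v ∧ ty i = true)
  cB : ∀ v, Hi G D v → v ≠ r0 → 1 ≤ qn G D v → v ≠ s0 →
    12 + 7 * (qn G D v / c) ≤ cnt (fun i => fr i = v ∧ ty i = false)
  cS : Hi G D s0 → s0 ≠ r0 → 1 ≤ qn G D s0 →
    6 + 7 * (qn G D s0 / c) ≤ cnt (fun i => fr i = s0 ∧ ty i = false)
  low : ∀ u w, G.Adj u w → dg G u = dg G w → ¬ Hi G D u → 2 ≤ dg G u →
    ∃ e ∈ edges G, u ∈ e ∧ w ∉ e ∧ (∀ i, e = e0 i → w ∉ e1 i) ∧ (∀ i, e = e1 i → w ∉ e0 i)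
  total : 100 * Fintype.card ι ≤ (edges G).card

/-- Pairs of edges with a type and the low condition (what the colouring part needs). -/
structure Prs (G : SimpleGraph V) (D : ℕ) (ι : Type) where
  e0 : ι → Sym2 V
  e1 : ι → Sym2 V
  ty : ι → Bool
  e0_mem : ∀ i, e0 i ∈ edges G
  e1_mem : ∀ i, e1 i ∈ edges G
  e0_inj : ∀ i j, e0 i = e0 j → i = j
  e1_inj : ∀ i j, e1 i = e1 j → i = j
  e01 : ∀ i j, e0 i ≠ e1 j
  low : ∀ u w, G.Adj u w → dg G u = dg G w → ¬ Hi G D u → 2 ≤ dg G u →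
    ∃ e ∈ edges G, u ∈ e ∧ w ∉ e ∧ (∀ i, e = e0 i → w ∉ e1 i) ∧ (∀ i, e = e1 i → w ∉ e0 i)

/-- forget everything but the pairs -/
def Typ.prs {G : SimpleGraph V} {c D : ℕ} {ι : Type} [Fintype ι] (T : Typ G c D ι) : Prs G D ι where
  e0 := T.e0
  e1 := T.e1
  ty := T.ty
  e0_mem := T.e0_mem
  e1_mem := T.e1_mem
  e0_inj := T.e0_inj
  e1_inj := T.e1_inj
  e01 := T.e01
  low := T.low

open Classical in
/-- edges at `v` -/
noncomputable def at' (G : SimpleGraph V) (v : V) : Finset (Sym2 V) := (edges G).filter (v ∈ ·)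

open Classical in
/-- number of edges with colour `k` and fine label `f` -/
noncomputable def num (G : SimpleGraph V) (κ : Sym2 V → ℕ) (φ : Sym2 V → Fin 4) (k : ℕ) (f : Fin 4) :
    ℕ := ((edges G).filter fun e => κ e = k ∧ φ e = f).card

open Classical in
/-- number of edges at `v` with colour `k` -/
noncomputable def deg' (G : SimpleGraph V) (κ : Sym2 V → ℕ) (v : V) (k : ℕ) : ℕ :=
  ((at' G v).filter fun e => κ e = k).card

/-- values of the fine labels -/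
def fv (c : ℕ) (f : Fin 4) : ℕ := if f = 0 then 0 else if f = 1 then 1 else if f = 2 then 2 else 2 + 4 * c

/-- step of a type -/
def wt (c : ℕ) (b : Bool) : ℤ := if b then 1 else 4 * c

open Classical in
/-- effect on `v` of flipping the item `(e0, e1)` -/
noncomputable def sg {V : Type} (e0 e1 : Sym2 V) (v : V) : ℤ :=
  (if v ∈ e0 then 1 else 0) - (if v ∈ e1 then 1 else 0)

end Pool.Agent.EQC
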