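import Pool.Agent.EQC.Defs

/-!
# Squad EQC: statements with complete proofs

Delivery: `Pool/Agent/HelperNN_EQC/Xxx.lean`, namespace `Pool.Agent.EQC.HNN`, import
`Pool.Agent.EQC.Stmts`, theorem `xxx (hypotheses = the Stmts in the column uses) : XxxStmt`.
-/

open SimpleGraph Finset
open Pool.Agent.Helper51_Equitable (edges nbrs vertexSum nb IsEquitableProper Nice)

namespace Pool.Agent.EQC

/-! ## Block 1: balanced choices and strong colouring (pure combinatorics) -/

/-- **BAL** (balanced orientation of a multigraph, loops allowed).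

Proof (Hall). Let `deg v = #{i : s i = v} + #{i : t i = v}` (a loop counts twice) and let `O` be the
set of vertices of odd degree. Add a new vertex `none` and for every `v ∈ O` a new edge `v none`
(index set `ι ⊕ O`, vertex set `Option V`): now all degrees are even, also that of `none` (handshake:
the sum of all degrees is twice the number of edges). Hall's theorem
(`Finset.all_card_le_biUnion_card_iff_exists_injective`) for the family which sends the edge `i` to
the slots `(v, k)`, `v` an end of `i`, `k < deg' v / 2`: for a set `S` of edges with set of ends `W`,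
`2 |S| = ∑_{v ∈ W} deg_S v ≤ ∑_{v ∈ W} deg' v = 2 · (number of slots over W)`. So every edge
gets a head, one of its ends, and every `v` is the head of at most `deg' v / 2` edges. As the number of edges
is the sum of all `deg' v / 2`, every `v` is the head of exactly `deg' v / 2` edges and hence also the
tail of exactly `deg' v / 2` edges. Forget the new edges: at every `v ∈ V` at most one edge
disappears. (Any other proof is fine, for example minimising the sum of the squares of
head minus tail and reversing a directed path.) -/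
def BalStmt : Prop :=
  ∀ (ι V : Type) [Fintype ι] [Fintype V] (s t : ι → V), ∃ o : ι → Bool, ∀ v : V,
    cnt (fun i => (if o i then s i else t i) = v) ≤ cnt (fun i => (if o i then t i else s i) = v) + 1 ∧
    cnt (fun i => (if o i then t i else s i) = v) ≤ cnt (fun i => (if o i then s i else t i) = v) + 1

/-- **TWO** (the union of two matchings is 2-colourable).

Proof. Choose a linear order on `Ω` (for example through `Fintype.equivFin`). Index the edges by
`{x // x < p x} ⊕ {x // x < m x}` with ends `x, p x` resp. `x, m x` and take a balanced orientation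
(BAL). Put `χ x = true` iff (`p x ≠ x` and `x` is the head of its p-edge) or (`p x = x` and
`m x ≠ x` and `x` is the tail of its m-edge). p-edges: one end is the head, the other is the tail, so
the values differ. m-edges `x → y` (`x` tail, `y` head): if `x` has a p-edge, its degree is 2
and by balance `x` is the head of its p-edge (head count and tail count differ by at most 1 and add up to 2, so both are 1), so
`χ x = true`; if `x` has no p-edge then `χ x = true` by definition. In the same way `χ y = false`.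
(The case `p x = m x ≠ x`: two parallel edges; then at `x` one is incoming and the other outgoing, so
everything still holds.) -/
def TwoStmt : Prop :=
  ∀ (Ω : Type) [Fintype Ω] (p m : Ω → Ω), (∀ x, p (p x) = x) → (∀ x, m (m x) = x) →
    ∃ χ : Ω → Bool, (∀ x, p x ≠ x → χ (p x) ≠ χ x) ∧ (∀ x, m x ≠ x → χ (m x) ≠ χ x)

/-- **STC** (strong colouring for a union of `t` matchings).

Proof by induction on `t`. `t = 0`: blocks have at most one element. Step `t → t + 1`: inside every
block choose an involution which pairs all elements of the block except at most one (order the block: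
positions `2j` and `2j+1`); together: an involution `p` with `blk (p x) = blk x` and at most one fixed
point in every block. TWO for `p` and `m 0` (or the last one) gives `χ`. In a block with `s ≤ 2^(t+1)` elements every colour
class of `χ` has at most `(s+1)/2 ≤ 2^t` elements. Induction for the block map `x ↦ (blk x, χ x)` and the
remaining `t` matchings gives `κ'`; put `κ x = 2 κ' x + χ x` (as an element of `Fin (2^(t+1))`). If
`blk x = blk y` and `κ x = κ y` then `χ x = χ y`, `κ' x = κ' y`, so `x = y`. -/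
def StcStmt : Prop :=
  ∀ (t : ℕ) (Ω β : Type) [Fintype Ω] (blk : Ω → β) (m : Fin t → Ω → Ω),
    (∀ i x, m i (m i x) = x) → (∀ b : β, cnt (fun x => blk x = b) ≤ 2 ^ t) →
    ∃ κ : Ω → Fin (2 ^ t), (∀ x y, blk x = blk y → κ x = κ y → x = y) ∧
      (∀ i x, m i x ≠ x → κ (m i x) ≠ κ x)

/-- **EDM** (a graph of maximum degree `Δ` is a union of `2 Δ` matchings).

Proof. Greedy edge colouring with `2Δ` colours: an edge `xy` meets at most `2 (Δ - 1)` other edges
(if there is an edge then `Δ ≥ 1`). Formally: induction over a list (or finset) of unordered pairs; a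
partial proper colouring of a set of edges is extended by one edge, since at most `2Δ - 2 < 2Δ` colours
are forbidden. Then `m i x = y` if `R x y` and the edge `xy` has the colour `i` (at most one such
`y`), and `m i x = x` if there is no such `y`. -/
def EdmStmt : Prop :=
  ∀ (Δ : ℕ) (Ω : Type) [Fintype Ω] (R : Ω → Ω → Prop), (∀ x y, R x y → R y x) → (∀ x, ¬ R x x) →
    (∀ x, cnt (fun y => R x y) ≤ Δ) →
    ∃ m : Fin (2 * Δ) → Ω → Ω, (∀ i x, m i (m i x) = x) ∧ (∀ x y, R x y → ∃ i, m i x = y)

/-- **SCO** (strong colouring for bounded degree). Immediate from STC (`t = 2 Δ`) and EDM: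
if `R x y` and `m i x = y` then `m i x ≠ x` as `R` is irreflexive, so `κ y ≠ κ x`. -/
def ScoStmt : Prop :=
  ∀ (Δ : ℕ) (Ω β : Type) [Fintype Ω] (blk : Ω → β) (R : Ω → Ω → Prop),
    (∀ x y, R x y → R y x) → (∀ x, ¬ R x x) → (∀ x, cnt (fun y => R x y) ≤ Δ) →
    (∀ b : β, cnt (fun x => blk x = b) ≤ 2 ^ (2 * Δ)) →
    ∃ κ : Ω → Fin (2 ^ (2 * Δ)), (∀ x y, blk x = blk y → κ x = κ y → x = y) ∧
      (∀ x y, R x y → κ x ≠ κ y)

/-- **HUB** (free elements and partners in the lists of the hubs).

Proof. For `v ∈ N x` let `pos x v = #{w ∈ N x : rk v < rk w}`: a bijection from `N x` onto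
`{0, ..., |N x| - 1}` (the ranks are injective on `N x`). The `j`-th pair of `x` consists of the elements of
positions `2j` and `2j+1`; if `|N x|` is odd the last element (position `|N x| - 1`) is a single.
BAL for the multigraph of all pairs (index set: all `(x, j)` with `2j + 1 < |N x|`, the two ends = the
elements of positions `2j`, `2j+1`): the head of a pair is its free element, the tail its non-free
element. `F x` = the free elements of all pairs of `x` and the single one. For `v ∈ F x` in the pair
(or single) number `j = pos x v / 2`: `par x v = none` if `j = 0`, `par x v = some w` with `w` the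
non-free element of the pair number `j - 1` if `j ≥ 1` (this pair is complete). Then `w ∈ N x`,
`w ∉ F x`, `pos x w ≤ 2j - 1 < pos x v`, so `rk v < rk w`. Injective: different free elements have
different numbers `j`, and the non-free elements of different pairs are different. Count: `v` lies in
`N x` for `A` hubs as an element of a pair and for `S` hubs as a single; it is free in all `S` of the latter
and in at least `(A - 1) / 2` of the former; so `A + S ≤ 2 (free) + 1`. -/
def HubStmt : Prop :=
  ∀ (X V : Type) [Fintype X] [Fintype V] (rk : V → ℕ) (N : X → Finset V),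
    (∀ x, ∀ u ∈ N x, ∀ v ∈ N x, rk u = rk v → u = v) →
    ∃ (F : X → Finset V) (par : X → V → Option V),
      (∀ x, F x ⊆ N x) ∧
      (∀ x, ∀ v ∈ F x, ∀ w, par x v = some w → w ∈ N x ∧ w ∉ F x ∧ rk v < rk w) ∧
      (∀ x, ∀ u ∈ F x, ∀ v ∈ F x, par x u = par x v → u = v) ∧
      (∀ v, cnt (fun x => v ∈ N x) ≤ 2 * cnt (fun x => v ∈ F x) + 1)

/-- **INJ** (an injection which avoids one forbidden value for every element).

Proof by induction on `A`: `A = ∅`: `B` is nonempty, take a constant map. Step: `A = insert j A'`;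
by induction there is `g` on `A'`; the values of `g` on `A'` are `|A'| = |A| - 1 ≤ |B| - 2` elements of
`B`, so at least two elements of `B` are unused and at least one of them is not the forbidden one of
`j`. Take it as the value at `j` (`Function.update`). -/
def InjStmt : Prop :=
  ∀ (J T : Type) (A : Finset J) (B : Finset T) (bad : J → Option T), A.card + 1 ≤ B.card →
    ∃ g : J → T, (∀ j ∈ A, g j ∈ B) ∧ (∀ j ∈ A, bad j ≠ some (g j)) ∧
      (∀ i ∈ A, ∀ j ∈ A, g i = g j → i = j)

/-! ## Block 2: the data -/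

/-- **MAT** (maximal matching). Proof: among all finsets of edges with both ends high and pairwise
without common vertex take one of maximal cardinality (or a maximal one, `Finset.exists_maximal`; the
empty set is one). If `u`, `v` are high and adjacent and no edge of `M` contains `u` or `v`, then
`insert s(u, v) M` is larger. -/
def MatStmt : Prop :=
  ∀ (V : Type) [Fintype V] (G : SimpleGraph V) (D : ℕ), ∃ M, MaxMat G D M

/-- **ORI** (balanced orientation).

Proof. Split the edges which have at least one high end and do not lie in `M` into three classes: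
(1) comparable edges (`Comp`), (2) the other edges with two high ends, (3) edges with one high and one low
end. Use BAL for each class separately (index set = the edges of the class; choose two ends with
`Quot.out` or order `V`). `Out x v` iff the edge `xv` lies in one of the classes, `v` is its head and `x` its
tail. `adj`, `notM`, `hi`, `asymm` are clear. In each class, for each vertex, heads and tails differ by
at most 1, so `a ≤ 2 in + 1` and `a ≤ 2 out + 1` where `a` is the number of edges of the class at the vertex.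
`indeg`: a high `v` has at most one edge in `M` (`MaxMat.mat`), all its other edges lie in the
three classes: `dg v ≤ 1 + a1 + a2 + a3 ≤ 1 + 2 in + 3`. `outdeg` in the same way. `incmp`:
`qn v ≤ 1 + a1 ≤ 1 + 2 in_1 + 1` (the comparable edges at `v` are in class 1 or in `M`; `in_1` = number
of `x` with `Comp x v` and `Out x v`). `lowout`: all oriented edges at a low `y` are in class 3, their number
`a3` is at most the number of high neighbours, `2 out ≤ a3 + 1`. -/
def OriStmt : Prop :=
  ∀ (V : Type) [Fintype V] (G : SimpleGraph V) (D : ℕ) (M : Finset (Sym2 V)), MaxMat G D M →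
    ∃ Out, Orient G D M Out

/-- **RNK**. Proof: let `n = |V|` and `e : V ≃ Fin n`; `rk r0 = 0` and
`rk v = 1 + dg v * (n + 1) + e v` for `v ≠ r0`. -/
def RnkStmt : Prop :=
  ∀ (V : Type) [Fintype V] (G : SimpleGraph V) (r0 : V), ∃ rk, Rank G r0 rk

/-- **DAT** (all data exist as soon as there is a high vertex).

Proof. `M` from MAT, `Out` from ORI. `r0`: a vertex of type L if there is one, otherwise any high
vertex. `rk` from RNK. `tau x` for a high `x ≠ r0`: the out-degree of `x` is positive since
`D ≤ dg x ≤ 2 out + 4` and `D > 4`; if there is a low `y` with `Out x y` take such a `y`; otherwise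
take the `v` with `Out x v` of largest rank. So `tau_out`, `tau_top` hold (if `tau x` is high then no low
`y` has `Out x y`). For other `x` any value. HUB with `X = {x // Hi x ∧ x ≠ r0}` (or `X = V` and `N x = ∅` for the
other `x`), `N x = {v : Hi v ∧ Out x v ∧ v ≠ tau x}` gives `F` and `par`; the remaining fields are its
conclusions. -/
def DatStmt : Prop :=
  ∀ (V : Type) [Fintype V] (G : SimpleGraph V) (c D : ℕ), Big c D → (∃ v, Hi G D v) →
    Nonempty (Dat G D)

/-- **CNT** (the windowed hubs are few). `X` = set of private hubs, `B(z) = {x ∈ X : tau x = z}`,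
`U` = vertices of the maximal matching, `N x` = out-neighbours.

Proof. Let `u = |U|`, real numbers. (0) For `x ∈ X \ U`:
`∑_{x ∈ X \ U} |N x \ {r0}| / d (tau x) ≤ u`, because every `v ∈ N x \ {r0}` lies in `U` and
`d v ≤ d (tau x)`, so the sum is at most `∑_{v ∈ U} #{x ∈ X : v ∈ N x} / d v ≤ ∑_{v ∈ U} 1`.
(1) `z ∈ T1`: `|B(z)| ≥ (d z - 6) / 6`. Either `|B(z) ∩ U| ≥ |B(z)| / 2 ≥ (D - 6) / 12`; the sets
`B(z)` are disjoint, so there are at most `12 u / (D - 6)` such `z`. Or `|B(z) \ U| ≥ |B(z)| / 2 ≥ (d z - 6) / 12`,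
and each `x ∈ B(z) \ U` has `|N x \ {r0}| ≥ (d x - 4) / 2 - 1 ≥ (D - 6) / 2`, so the part of the sum (0)
with `tau x = z` is at least `((d z - 6) / 12) ((D - 6) / 2) / d z ≥ (D - 6) / 48` (as `d z ≥ D ≥ 12`);
so there are at most `48 u / (D - 6)` such `z`. Hence `|T1| ≤ 60 u / (D - 6)` and
`(4 c + 11) |T1| ≤ 60 u / 2000`.
(2) `z ∈ T2`: let `Bc(z) = {x ∈ B(z) : cmp x z}`, `|Bc(z)| ≥ (q z - 4) / 4 ≥ 1749`. The sum over
`z ∈ T2` of `|Bc(z) ∩ U|` is at most `u`. For `x ∈ Bc(z) \ U`: `|N x \ {r0}| / d z ≥ ((d x - 6) / 2) / d z ≥ ((d z / 2 - 6) / 2) / d z ≥ 1/5`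
(as `d z ≥ D ≥ 60`), so by (0) the sum over `z ∈ T2` of `|Bc(z) \ U|` is at most `5 u`. Together at
most `6 u`. And `7 (q z / c) ≤ 7 q z / c ≤ 7 (4 |Bc(z)| + 4) / c ≤ 29 |Bc(z)| / 7000`, so the second
sum is at most `29 · 6 u / 7000 ≤ 0.025 u`. Total: `16 (0.03 + 0.025) u = 0.88 u ≤ u`. -/
def CntStmt : Prop :=
  ∀ (V : Type) [Fintype V] (c D : ℕ) (d q : V → ℕ) (r0 : V) (U X T1 T2 : Finset V) (tau : V → V)
    (N : V → Finset V) (cmp : V → V → Prop), Big c D →
    (∀ x ∈ X, D ≤ d x ∧ D ≤ d (tau x) ∧ d x ≤ 2 * (N x).card + 4 ∧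
      (∀ v ∈ N x, v ≠ r0 → d v ≤ d (tau x)) ∧ (x ∉ U → N x ⊆ U)) →
    (∀ v, cnt (fun x => x ∈ X ∧ v ∈ N x) ≤ d v) →
    (∀ v ∈ U, D ≤ d v) →
    (∀ z ∈ T1, D ≤ d z ∧ d z ≤ 6 * cnt (fun x => x ∈ X ∧ tau x = z) + 6) →
    (∀ z ∈ T2, D ≤ d z ∧ c ≤ q z ∧ q z ≤ 4 * cnt (fun x => x ∈ X ∧ tau x = z ∧ cmp x z) + 4) →
    (∀ x z, cmp x z → d z ≤ 2 * d x) →
    16 * ((4 * c + 11) * T1.card + ∑ z ∈ T2, 7 * (q z / c)) ≤ U.card

/-- **SEL** (choice of the hubs used by the active vertices).

Proof. Hub means: high and `≠ r0`. For an active `v` let `l = #{y low : Out y v}`,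
`b = #{x hub : tau x = v}` (then `Out x v` by `tau_out`), `p = #{x hub : Out x v, v ≠ tau x}`,
`f = #{x hub : v ∈ F x}`, and `bc`, `pc` the numbers of those `x` counted in `b`, `p` with `Comp x v`.
All `x` with `Out x v` are low, or hubs, or `r0`: `dg v ≤ 2 (l + b + p + 1) + 4` (`indeg`) and
`qn v ≤ 2 (bc + pc + 1) + 2` (`incmp`); `p ≤ 2 f + 1` (`F_cnt`). Write `k = 4c + 11`, `B = 7 (qn v / c)`;
`qn v ≤ dg v` and so `B ≤ dg v / 1000`, `B ≤ qn v / 1000`.
Case `v` of type L: constant demand 0, otherwise constant demand `k`. If `v` is not of type L, then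
`dg v > 6 l + 6`, so (i) `dg v ≤ 6 b + 6` or (ii) `dg v ≤ 6 p + 6` (otherwise
`3 dg v > 6 (l + b + p) + 18 ≥ 3 (dg v - 6) + 18`). Let `T1` = active, not type L, with (i).
Bulk: if `qn v ≥ c` then (iii) `qn v ≤ 4 bc + 4` or (iv) `qn v ≤ 4 pc + 4`. Let `T2` = active with `c ≤ qn v`
and (iii). `WF v` := a subset of `{x hub : tau x = v}` with `(k if v ∈ T1) + (B if v ∈ T2)` elements,
`NF v` := a subset of `{x hub : v ∈ F x}` with `(k if v not of type L and v ∉ T1) + (B if v ∉ T2)` elements
(if `qn v < c` then `B = 0`). They exist: (i) gives `b ≥ (dg v - 6) / 6 ≥ k + B`; only bulk: `b ≥ bc ≥ (qn v - 4) / 4 ≥ B`;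
(ii) gives `f ≥ (p - 1) / 2 ≥ (dg v - 12) / 12 ≥ k + B` (as `dg v ≥ D ≥ 2000 k`); only bulk, `qn v ≥ c ≥ 7000`:
`f ≥ (pc - 1) / 2 ≥ (qn v - 8) / 8 ≥ B`. Note `dg (v)` high: `v ∈ F x` etc. are counted with `Hi v`.
`few`: the sum of `|WF v|` is at most `k |T1| + ∑_{T2} B`, and CNT with `X = {x hub : Hi (tau x)}`, `N x = {v : Out x v}`,
`U` = the vertices of the edges of `M` (`|U| ≤ 2 |M|`), `d = dg`, `q = qn`, `cmp = Comp` gives
`16 (...) ≤ |U| ≤ 2 |M|`. Hypotheses of CNT: `dg x ≤ 2 |N x| + 4` is `outdeg`; `v ∈ N x`,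
`v ≠ r0`: `rk v ≤ rk (tau x)` by `tau_top`, so not `dg (tau x) < dg v` by `Rank.mono` (here `tau x ≠ r0`:
otherwise `rk v ≤ rk r0` for all `v ∈ N x`, so `N x ⊆ {r0}`, but `|N x| ≥ (D - 4) / 2 ≥ 2`); `x ∉ U → N x ⊆ U` is `MaxMat.max`
(all elements of `N x` are high by `tau_top`); `#{x : v ∈ N x} ≤ dg v` as `x` is a neighbour of `v`. -/
def SelStmt : Prop :=
  ∀ (V : Type) [Fintype V] (G : SimpleGraph V) (c D : ℕ) (d : Dat G D), Big c D →
    Nonempty (Sel c d)

/-- **WIN** (distinct edges of `M` for the windowed hubs).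

Proof. Let `X = {x : Xw s x}`; the sets `WF v` are disjoint and `Xw s x` iff `x ∈ WF (tau x)`, so `|X| ≤ ∑ |WF v| ≤ |M| / 8`.
If `X = ∅` nothing is required (any `mt`). Otherwise `|M| ≥ 8 |X| ≥ 8`. INJ with `A = X ×ˢ {true, false}`
(`2 |X|` elements), `B = {e ∈ M : r0 ∉ e}` (at least `|M| - 1` elements by `MaxMat.mat`), and
`bad (x, true)` = the edge of `M` which contains `tau x` if there is one, `bad (x, false)` = the edge of `M` which contains
the `v ∈ F x` with `par x v = none` if there is such a `v` (it is unique by `par_inj`) and such an edge.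
`2 |X| + 1 ≤ |M| - 1`. -/
def WinStmt : Prop :=
  ∀ (V : Type) [Fintype V] (G : SimpleGraph V) (c D : ℕ) (d : Dat G D) (s : Sel c d), Big c D →
    Nonempty (Win s)

/-- **SUP** (super-hub items).

Proof. `Lam` = set of vertices of type L. If `Lam ⊆ {r0}` nothing is required (choose arbitrary values, `V` is
nonempty because of `r0`). Otherwise `r0 ∈ Lam` (`r0_lt`) and `s0` = the element of `Lam` of largest rank
(`≠ r0`). For `t ∈ Lam`, `t ≠ r0`: `nx t` = the element of `Lam` of smallest rank among those of rank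
larger than `t`, if there is one, and `nx s0 = r0`. `nx` is injective on `Lam \ {r0}` (successor in a finite
linear order; `nx t = r0` only for `t = s0`, as a rank successor is never `r0`). Let
`L t = {y : y low, Out y t}`, `|L t| ≥ (dg t - 6) / 6 ≥ (D - 6) / 6 ≥ 2 (4c + 11) + 2`. Write `k = 4c + 11`.
First choose for every `t ∈ Lam` an injective family `a t j ∈ L t`, `j < k` (all at once). Then for
`t ∈ Lam \ {r0}` with `u = nx t` choose `b t j ∈ L u \ {a u i : i < k}` injective in `j` such that
`b t j` is not the bad element of `j`: INJ with `A` = all `j`, `B = L u \ {a u i}` (at least `k + 2` elements),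
`bad j` = the element `y'` of `B` with `G.Adj (a t j) y'` if `dg (a t j) = 2` (it is unique: `a t j` has exactly two neighbours, one of
them is `t`, which is high and so not in `B`), otherwise `none`. -/
def SupStmt : Prop :=
  ∀ (V : Type) [Fintype V] (G : SimpleGraph V) (c D : ℕ) (d : Dat G D), Big c D →
    Nonempty (Sup c d)

/-! ## Block 3: verification of the items -/

/-- **EDG** (all edges of all items are different edges of `G`).

Proof. KEY: if `Out x v`, `Out x' v'` and `s(x, v) = s(x', v')` then `x = x'` and `v = v'`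
(`asymm`). All edges used are `s(x, v)` with `Out x v` or edges `mt x b ∈ M` (and `s(x, v) ∉ M` if
`Out x v`). Free edges: normal `(x, v)`: `x` hub, `v ∈ F x` (so `v ≠ tau x`, `Out x v`); windowed `(x, v)`: `v = tau x`;
super: `(a t j, t)` with `a t j` low (hubs are high). So the `E0` are distinct (`a_inj`). Partner edges: normal with
`par = some y`: `(x, y)`, `y ∉ F x`, `y ≠ tau x`, injective in `v` by `par_inj`; normal with `none`, `x` not windowed: `(x, tau x)`, only one `v` by `par_inj`;
normal with `none`, `x` windowed: `mt x false`; windowed: `mt x true` (note that a windowed item `(x, v)` has `Xw s x`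
because `tau x = v`); super: `(b t j, nx t)`, `b t j` low, injective by `nx_inj`, `b_inj` (`t, t' ≠ r0` since active). `mt` is injective
by `Win.inj`. Free against partner: `(x, v)`, `v ∈ F x` against `(x, y)`, `y ∉ F x`, against `(x, tau x)`; `(x, tau x)` with `x` windowed
against `(x, tau x)` with `x` not windowed; `(a t' j', t')` against `(b t j, nx t)`: then `nx t = t'` and `b t j = a t' j'`, excluded by `ab`. -/
def EdgStmt : Prop :=
  ∀ (V : Type) [Fintype V] (G : SimpleGraph V) (c D : ℕ) (d : Dat G D) (s : Sel c d) (w : Win s)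
    (p : Sup c d),
    (∀ i, Ok s i → E0 p i ∈ edges G ∧ E1 w p i ∈ edges G) ∧
    (∀ i j, Ok s i → Ok s j → E0 p i = E0 p j → i = j) ∧
    (∀ i j, Ok s i → Ok s j → E1 w p i = E1 w p j → i = j) ∧
    (∀ i j, Ok s i → Ok s j → E0 p i ≠ E1 w p j)

/-- **FRV** (free vertices, and the special vertex `r0`).

Proof. If `Ok s i` then `Fr i` is active (`Sel.act` for the first two kinds), so `Fr i ≠ r0`. `Fr i ∈ E0 i` is
clear. `Fr i ∉ E1 i`: normal, `some y`: `v ≠ x` (adjacent) and `v ≠ y` (`v ∈ F x`, `y ∉ F x`); normal, `none`, not windowed: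
`v ≠ tau x`, `v ≠ x`; normal, `none`, windowed: `Win.free`; windowed: `Win.tau`; super: `t ≠ b t j` (`t` high, `b t j` low) and `t ≠ nx t` (by
`nx_mem`: the rank of `nx t` is larger or `nx t = r0 ≠ t`). `r0 ∉ E0 i`: the hub `x` is not `r0`, `v` is
active so not `r0`; `a t j` is low. `r0 ∈ E1 i`: normal, `some y`: `y = r0` contradicts `rk v < rk y`; `none`, not windowed: `tau x = r0`
is high, so by `tau_top` `rk v ≤ rk r0`, contradiction to `Rank.first` (`v ≠ r0`); edges `mt` do not contain `r0`; super: `b t j` is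
low, so `nx t = r0`, and then `rk t < rk r0` is impossible, so `t = s0`. So `i = (s0, j)` is a super-hub item: at most
`4c + 11` of them. -/
def FrvStmt : Prop :=
  ∀ (V : Type) [Fintype V] (G : SimpleGraph V) (c D : ℕ) (d : Dat G D) (s : Sel c d) (w : Win s)
    (p : Sup c d),
    (∀ i, Ok s i → Act d (Fr i) ∧ Fr i ∈ E0 p i ∧ Fr i ∉ E1 w p i) ∧
    (∀ i, Ok s i → d.r0 ∉ E0 p i) ∧
    (∀ i, Ok s i → d.r0 ∈ E1 w p i → Fr i = p.s0) ∧
    cnt (fun i : Idx V c => Ok s i ∧ d.r0 ∈ E1 w p i) ≤ 4 * c + 11

/-- **LOD** (loads).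

Proof. Let `u` be high, `u ≠ r0`. PLUS: `rk u < rk (Fr i)`, `u ∈ E0 i`, `u ∉ E1 i`. `E0 i = {hub x, Fr i}` or `{a t j, t}`, and `u ≠ Fr i`; `a t j` is low; so `u = x`
and the item is normal or windowed with hub `u`. Normal with `some y` or with `none` and `u` not windowed: `u ∈ E1 i`,
excluded. So the item is normal with `par u v = none` (only one `v` by `par_inj`) or windowed `(u, tau u)`: at
most 2. MINUS: `rk u < rk (Fr i)`, `u ∈ E1 i`, `u ∉ E0 i`. Normal with `some y`: `u = x` is excluded (`x ∈ E0`), `u = y` has `rk v < rk y = rk u`, excluded.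
Normal, `none`, not windowed: `u = tau x` is high, `v ∈ F x` has `Out x v`, so `rk v ≤ rk (tau x) = rk u` by `tau_top`, excluded.
Super: `u = nx t` (as `b t j` is low), `≠ r0`, so `rk t < rk (nx t) = rk u`, excluded. So `E1 i = mt x b ∈ M`: the edge of `M` which contains `u` is unique and `mt` is injective
(`Win.inj`), and `(x, true)` resp. `(x, false)` determines the item (`v = tau x`, resp. the unique `v ∈ F x` with `par x v = none`): at
most 1. -/
def LodStmt : Prop :=
  ∀ (V : Type) [Fintype V] (G : SimpleGraph V) (c D : ℕ) (d : Dat G D) (s : Sel c d) (w : Win s)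
    (p : Sup c d) (u : V), Hi G D u → u ≠ d.r0 →
    cnt (fun i : Idx V c => Ok s i ∧ d.rk u < d.rk (Fr i) ∧ u ∈ E0 p i ∧ u ∉ E1 w p i) ≤ 2 ∧
    cnt (fun i : Idx V c => Ok s i ∧ d.rk u < d.rk (Fr i) ∧ u ∈ E1 w p i ∧ u ∉ E0 p i) ≤ 1

/-- **LOW** (low condition).

Proof. Let `u`, `w` be adjacent, low, of equal degree `n ≥ 2`. FACT: if `e = s(u, v')` with `v' ≠ w` is an edge and `¬ Out u v'`, then `e` works: a free edge of an
item is `s(x, v)` with `Out x v` and `v` high, containing the low `u` only if `u = x` is its first element, so `Out u v'`, excluded; so `e` is no free edge. If `e` is the partner edge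
of an item: `mt` has high ends, no; normal `some y`: both ends high, no; super `s(b t j, nx t)`: `u = b t j`, `Out u v'`, excluded; so it is normal `none`, `e = s(x, tau x)` with `tau x = u`,
`x = v'`, and the free edge `s(x, v)` has two high ends, so it does not contain the low `w`.
Case `n ≥ 3`: the high neighbours of `u` are among the `n - 1` neighbours `≠ w`, so `2 #{v : Out u v} ≤ (n - 1) + 1 = n` (`lowout`) and
`#{v : Out u v} ≤ n / 2 < n - 1`: there is a neighbour `v' ≠ w` of `u` with `¬ Out u v'`. (If `Out u v` then `v` is a high neighbour.)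
Case `n = 2`: let `v'` be the other neighbour of `u`. If `¬ Out u v'` use FACT. If `Out u v'` then `v'` is high; `e = s(u, v')`. `e` is not a
hub edge `s(x, y)` with `Out x y`, `x` high (key fact of EDG: `x = u` is low), and not in `M`. If `e` is the free edge of a super item, `u = a t j`, `v' = t`, and the
partner edge is `s(b t j, nx t)`; if it contains `w` (low) then `w = b t j`, adjacent to `u = a t j`, both of degree 2: excluded by `avoid`. If `e` is
the partner edge of a super item, `u = b t j`, then the free edge `s(a t j, t)` contains `w` only if `w = a t j`: excluded by `avoid` in the same way.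
(Note that the items are restricted to `t` active, so `t ≠ r0`.) -/
def LowStmt : Prop :=
  ∀ (V : Type) [Fintype V] (G : SimpleGraph V) (c D : ℕ) (d : Dat G D) (s : Sel c d) (w : Win s)
    (p : Sup c d) (u z : V), G.Adj u z → dg G u = dg G z → ¬ Hi G D u → 2 ≤ dg G u →
    ∃ e ∈ edges G, u ∈ e ∧ z ∉ e ∧ (∀ i, Ok s i → e = E0 p i → z ∉ E1 w p i) ∧
      (∀ i, Ok s i → e = E1 w p i → z ∉ E0 p i)

/-- **CNI** (number of items).

Proof. Items with free vertex `v` (active): normal: `|NF v|`, windowed: `|WF v|`, super: `4c + 11` if `v` is of type L, else 0; use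
`card_lt`, `card_not`. Not active: none (`Sel.act`). Total: with `m = |edges G|`, `∑_v dg v = 2 m`
(`SimpleGraph.sum_degrees_eq_twice_card_edges`), the number of high vertices is at most `2m / D`, `∑_v qn v ≤ 2 m`. So the number of items is at most
`(4c + 11) · 2m / D + 7 · 2m / c ≤ m / 1000 + m / 500 ≤ m / 100`. -/
def CniStmt : Prop :=
  ∀ (V : Type) [Fintype V] (G : SimpleGraph V) (c D : ℕ) (d : Dat G D) (s : Sel c d), Big c D →
    (∀ v, Act d v → cnt (fun i : Idx V c => Ok s i ∧ Fr i = v) = 4 * c + 11 + 7 * (qn G D v / c)) ∧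
    100 * cnt (fun i : Idx V c => Ok s i) ≤ (edges G).card

/-- **STR** (assembly). If there is no high vertex take `ι = Empty`, any `rk`, `r0 = s0` = any vertex (all conditions on high
vertices are empty; `low`: take `e = s(u, v')` for a neighbour `v' ≠ w` of `u`, which exists as `2 ≤ dg u`); otherwise DAT, SEL, WIN, SUP and
`ι = {i : Idx V c // Ok s i}` with EDG, FRV, LOD, LOW, CNI. (`cnt` over the subtype = `cnt` of the conjunction.) -/
def StrStmt : Prop :=
  ∀ (V : Type) [Fintype V] [Nonempty V] (G : SimpleGraph V) (c D : ℕ), Big c D →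
    ∃ (ι : Type) (_ : Fintype ι), Nonempty (Str G c D ι)

/-- **TYP** (types and the 6 items which are not used).

Proof. Keep a subset `ι'` of the items and give types. For every active `v ≠ s0` (high, `≠ r0`, `1 ≤ qn`): all items with `fr i = v`
are kept, `4c - 1` of them get type A, the others (`12 + 7 (qn v / c)`) type B; they do not contain `r0` in `e1`
(`r0_e1`). For `v = s0` active: let `R` be the set of its items with `r0 ∈ e1 i` (`|R| ≤ 4c + 11`) and `T` the total number
`4c + 11 + B`, `B = 7 (qn s0 / c)`. If `|R| ≤ 4c + 5`: type A for `4c - 1` items, including as many of `R` as possible (so at most 6 elements of `R`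
remain), type B for all others (`12 + B`). If `|R| > 4c + 5`: type A for `4c - 1` elements of `R`, type B for 6 other elements of `R` and
for all `T - |R| ≥ B` items outside `R`; the at most 6 remaining elements of `R` are dropped. Items with `fr i` not active: dropped (or kept with type B; if `fr i = s0` is
not active drop them). All other fields are inherited by the subtype. -/
def TypStmt : Prop :=
  ∀ (V : Type) [Fintype V] (G : SimpleGraph V) (c D : ℕ) (ι : Type) [Fintype ι], Big c D →
    Str G c D ι → ∃ (κ : Type) (_ : Fintype κ), Nonempty (Typ G c D κ)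

/-! ## Block 4: flips -/

/-- **KKP** (the algorithm of Kalkowski, Karonski and Pfender by flips). `C` = conflicts, `δ = 4c`.

Proof. `val F u` is the value of `u` if the items of `F` are flipped. For `F ⊆ ι` and `v` let `F|v = {i ∈ F : rk (fr i) ≤ rk v}`.
We build `F` by processing the vertices in the order of `rk`; at the time of `v` we choose which items with `fr i = v` are in `F`. For `v ≠ r0` with a
conflict put `σ(v) = val (F|v) v` (it is not changed by the choices of later vertices). All later choices change the value of `v` by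
`a + δ b` with `-1 ≤ a ≤ 2`, `-1 ≤ b ≤ 2` (at most 2 items with `ε = 1` and at most 1 with `ε = -1`, each of weight 1 or `δ`).
Invariants for `v ≠ r0` with a conflict, `v` processed:
(1) `σ(v) ≡ 4 r(v) + 1` modulo `δ` for some `r(v) ∈ {0, ..., c - 1}`;
(2) for every `u ≠ r0` with `C u v`, `rk u < rk v`, `r(u) = r(v)`: `|σ(v) - σ(u)| ≥ 4 δ`;
(3) if `C v r0` and `v ≠ s0`: `σ(v) ∉ [base r0 - 9δ - 1, base r0 + δ + 1]`;
(4) if `C v r0` and `v = s0`: `σ(s0) - val (F|s0) r0 ∉ [-2δ - 2, δ + 1]`.
CHOICE at `v`: let `cur` be the value of `v` before. The cell `r` is chosen so that the number `S` of earlier `u ≠ r0` with `C u v`, `r(u) = r` is at most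
`#{u : C v u} / c` (pigeonhole over the `c` cells). Flip `i0 ≤ δ - 1` items of type A (`ty = true`, weight 1) with free vertex `v` such that `cur + i0 ≡ 4r + 1`; there are at least
`4c - 1` of them. Then flip the first `j` items of type B in a fixed order: `σ_j = cur + i0 + δ j`, `0 ≤ j ≤ n_B`. Forbidden `j`: for (2) at most 7 for each of the `S` vertices `u`;
for (3) at most 11 (an interval of length `10δ + 2 < 11 δ`); so `7 S + 11 < 13 + 7 S ≤ n_B + 1`. For `v = s0`: (4): `σ_j - val_j(r0)` grows by at least `δ` when `j` grows by 1 (`ε ≤ 0` at `r0`), the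
interval has length `3δ + 3 < 4δ`, so at most 4 forbidden: `7 S + 4 < 7 + 7 S ≤ n_B + 1`.
END: let `C u v`. If both are `≠ r0`, say `rk u < rk v`: final difference `σ(v) - σ(u) + (a_v - a_u) + δ (b_v - b_u)` with `|a_v - a_u| ≤ 3`,
`|b_v - b_u| ≤ 3`. Different cells: modulo `δ` it is `4 (r(v) - r(u)) + (a_v - a_u)`, not 0 modulo `4c` since `4 ≤ |4 (r(v) - r(u))| ≤ 4c - 4`. Same cell:
absolute value at least `4δ - 3δ - 3 > 0`. If `u = r0`: only items with `fr i = s0` change `r0` (`ε r0 = -1`, never `+1`), the final value of `r0` lies in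
`[base r0 - (δ - 1) - 6δ, base r0]`, and the value of `v` in `σ(v) + [-1 - δ, 2 + 2δ]`: equality contradicts (3)
for `v ≠ s0` (then `σ(v) ∈ [base r0 - 7δ + 1 - 2 - 2δ, base r0 + 1 + δ]`); for `v = s0` the value of `r0` is not changed after the time of `s0`, equality contradicts (4).
`r0` is processed first: no item has `fr i = r0`. Numbers of conflicts: `C` is symmetric and irreflexive. -/
def KkpStmt : Prop :=
  ∀ (V : Type) [Fintype V] (ι : Type) [Fintype ι] (c : ℕ) (C : V → V → Prop) (base : V → ℤ)
    (rk : V → ℕ) (r0 s0 : V) (fr : ι → V) (ty : ι → Bool) (ε : ι → V → ℤ),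
    1 ≤ c → (∀ u v, C u v → C v u) → (∀ u, ¬ C u u) → (∀ u v, rk u = rk v → u = v) →
    (∀ v, v ≠ r0 → rk r0 < rk v) →
    (∀ i u, ε i u = -1 ∨ ε i u = 0 ∨ ε i u = 1) → (∀ i, ε i (fr i) = 1) → (∀ i, fr i ≠ r0) →
    (∀ i, ε i r0 ≠ 1) → (∀ i, ε i r0 = -1 → fr i = s0) →
    (∀ u, u ≠ r0 → (∃ w, C u w) → cnt (fun i => rk u < rk (fr i) ∧ ε i u = 1) ≤ 2 ∧
      cnt (fun i => rk u < rk (fr i) ∧ ε i u = -1) ≤ 1) →
    cnt (fun i => ty i = true ∧ ε i r0 = -1) ≤ 4 * c - 1 →
    cnt (fun i => ty i = false ∧ ε i r0 = -1) ≤ 6 →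
    (∀ v, v ≠ r0 → (∃ w, C v w) → 4 * c - 1 ≤ cnt (fun i => fr i = v ∧ ty i = true) ∧
      (v ≠ s0 → 12 + 7 * (cnt (fun w => C v w) / c) ≤ cnt (fun i => fr i = v ∧ ty i = false)) ∧
      6 + 7 * (cnt (fun w => C v w) / c) ≤ cnt (fun i => fr i = v ∧ ty i = false)) →
    ∃ F : Finset ι, ∀ u v, C u v →
      base u + ∑ i ∈ F, wt c (ty i) * ε i u ≠ base v + ∑ i ∈ F, wt c (ty i) * ε i v

/-- **FLP** (flipping a set of items).

Proof. `φ' e = 1` (type A) or `3` (type B) if `e = e0 i` with `i ∈ F`; `φ' e = 0` or `2` if `e = e1 i` with `i ∈ F`; otherwise `φ' e = φ e`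
(well defined since all `e0 i`, `e1 i` are different). Counts: the map which exchanges `e0 i` and `e1 i` for `i ∈ F` and fixes all other
edges is an involution of the edges which preserves `κ` and carries `φ'` to `φ`. Sums: `fv (φ' e) - fv (φ e)` is `wt (ty i)` at `e = e0 i`, `- wt (ty i)` at `e = e1 i` (`i ∈ F`) and 0
elsewhere; sum over the edges at `v`. (Or induction on `F`.) -/
def FlpStmt : Prop :=
  ∀ (V : Type) [Fintype V] (G : SimpleGraph V) (c D : ℕ) (ι : Type) [Fintype ι] (P : Prs G D ι)
    (κ : Sym2 V → ℕ) (φ : Sym2 V → Fin 4) (F : Finset ι),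
    (∀ i, κ (P.e0 i) = κ (P.e1 i)) →
    (∀ i, φ (P.e0 i) = (if P.ty i then 0 else 2) ∧ φ (P.e1 i) = (if P.ty i then 1 else 3)) →
    ∃ φ' : Sym2 V → Fin 4, (∀ k f, num G κ φ' k f = num G κ φ k f) ∧
      (∀ v, ∑ e ∈ at' G v, (fv c (φ' e) : ℤ) =
        ∑ e ∈ at' G v, (fv c (φ e) : ℤ) + ∑ i ∈ F, wt c (P.ty i) * sg (P.e0 i) (P.e1 i) v)

/-! ## Block 5: colours and exact counts -/

/-- **CBL** (exact counts from blocks).

Proof. Identify `Ω` with `Fin (q n + r)` (`Fintype.equivFinOfCardEq`) and put `blk i = min (i / q) n` (for `q > 0`; if `q = 0` then `Ω` is empty as `r ≤ q`). The blocks `0, ..., n - 1` have exactly `q`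
elements, the block `n` has `r ≤ q` elements. A colouring `κ : Ω → Fin q` which is injective on the blocks is bijective on the full
blocks, so every colour occurs exactly once in each of them, and at most once in the block `n` (never if `r = 0`). -/
def CblStmt : Prop :=
  ∀ (Ω : Type) [Fintype Ω] (q n r : ℕ), Fintype.card Ω = q * n + r → r ≤ q →
    ∃ blk : Ω → ℕ, (∀ b, cnt (fun x => blk x = b) ≤ q) ∧
      ∀ κ : Ω → Fin q, (∀ x y, blk x = blk y → κ x = κ y → x = y) →
        ∀ k, n ≤ cnt (fun x => κ x = k) ∧ cnt (fun x => κ x = k) ≤ n + (if r = 0 then 0 else 1)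

/-- **DUM** (dummy pairs).

Proof. Induction on `n` (number of pairs). Edges `e`, `e'` are in conflict if there are low `u ∈ e`, low `z ∈ e'` with `G.Adj u z`. Given `e` there are at most `2 D^2` edges `e'`
in conflict with `e` (at most 2 low ends `u` of `e`, fewer than `D` neighbours `z` of `u`, each with fewer than `D` edges), and the relation is symmetric. As long as fewer than `n` pairs are
chosen at most `2 (n - 1)` elements of `R` are used, so an unused `e ∈ R` exists and then an unused `e' ∈ R`, `e' ≠ e`, not in conflict with `e`, as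
`|R| ≥ 2 n + 2 D^2 > 2 (n - 1) + 1 + 2 D^2`. -/
def DumStmt : Prop :=
  ∀ (V : Type) [Fintype V] (G : SimpleGraph V) (D n : ℕ) (R : Finset (Sym2 V)),
    (∀ e ∈ R, e ∈ edges G) → 2 * n + 2 * D ^ 2 ≤ R.card →
    ∃ f g : Fin n → Sym2 V, (∀ j, f j ∈ R ∧ g j ∈ R) ∧ (∀ i j, f i = f j → i = j) ∧
      (∀ i j, g i = g j → i = j) ∧ (∀ i j, f i ≠ g j) ∧
      (∀ j, ∀ u ∈ f j, ∀ z ∈ g j, ¬ Hi G D u → ¬ Hi G D z → ¬ G.Adj u z)

/-- **EXT** (adding dummy pairs).

Proof. `R` = the edges which are not of the form `P.e0 i` or `P.e1 i`, `|R| ≥ m - 2 |ι|`. DUM with `n = nA + nB`; index set `ι ⊕ (Fin nA ⊕ Fin nB)` (or `ι ⊕ Fin (nA + nB)`), types `true` for the first `nA` new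
pairs, `false` for the others. The low condition: let `e` be the edge of `P.low u w`. If `e` lies in `R` and in a new pair `{e, e'}`, then `w ∈ e'` would give the low adjacent
vertices `u ∈ e`, `w ∈ e'` (`w` is low because `dg w = dg u`), excluded; if `e` is an old edge the old statement is enough (`e` is not in a new pair). -/
def ExtStmt : Prop :=
  ∀ (V : Type) [Fintype V] (G : SimpleGraph V) (D : ℕ) (ι : Type) [Fintype ι] (P : Prs G D ι)
    (nA nB : ℕ), 2 * Fintype.card ι + 2 * (nA + nB) + 2 * D ^ 2 ≤ (edges G).card →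
    ∃ (κ : Type) (_ : Fintype κ) (Q : Prs G D κ) (f : ι → κ),
      (∀ i, Q.e0 (f i) = P.e0 i ∧ Q.e1 (f i) = P.e1 i ∧ Q.ty (f i) = P.ty i) ∧
      cnt (fun i => Q.ty i = true) = cnt (fun i => P.ty i = true) + nA ∧
      cnt (fun i => Q.ty i = false) = cnt (fun i => P.ty i = false) + nB

/-- **GAM** (the conflict graph of the pairs and single edges has degree at most `8 D^2`).
`Ω` = the pairs and the remaining single edges; `own e x`: the edge `e` belongs to `x`.

Proof. For every `(u, w)` with `G.Adj u w`, `dg u = dg w`, `u` low, `2 ≤ dg u` choose the edge `E(u, w)` of `P.low`. Let `R x y` iff there are such `u, w` and an edge `e' ∋ w` of `G`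
with (`E(u, w)` belongs to `x` and `e'` to `y`) or (`E(u, w)` belongs to `y` and `e'` to `x`). Symmetric. Irreflexive: if `E(u, w)` and
`e' ∋ w` belong to the same single edge they are equal, but `w ∉ E(u, w)`; if they belong to the same pair `i`, then they are equal (no) or one is `e0 i` and the other `e1 i`,
excluded by the low condition. Degree: at most 4 vertices lie on the (at most 2) edges of `x`. First kind: `u` is one of these (4 choices), `w` a neighbour of the low `u` (fewer than `D`), `e' ∋ w` an edge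
at the low `w` (fewer than `D`), `y` is determined by `e'`: at most `4 D^2`. Second kind: `w` one of the 4 vertices, low, `u` a neighbour of `w` (fewer than `D`), `y` determined: at most `4 D ≤ 4 D^2` (if `D = 0` there is no low vertex). Property: every
edge belongs to exactly one `x`; for adjacent low `u, w` of equal degree at least 2 the edge `e = E(u, w)` contains `u` and for all edges `e' ∋ w` with
owners `x` of `e`, `y` of `e'`: `R x y`. -/
def GamStmt : Prop :=
  ∀ (V : Type) [Fintype V] (G : SimpleGraph V) (D : ℕ) (ι : Type) [Fintype ι] (P : Prs G D ι)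
    (Ω : Type) [Fintype Ω] (own : Sym2 V → Ω),
    (∀ i, own (P.e0 i) = own (P.e1 i)) →
    (∀ e ∈ edges G, ∀ e' ∈ edges G, own e = own e' → e = e' ∨
      (∃ i, e = P.e0 i ∧ e' = P.e1 i) ∨ (∃ i, e = P.e1 i ∧ e' = P.e0 i)) →
    ∃ R : Ω → Ω → Prop, (∀ x y, R x y → R y x) ∧ (∀ x, ¬ R x x) ∧
      (∀ x, cnt (fun y => R x y) ≤ 8 * D ^ 2) ∧
      (∀ u w, G.Adj u w → dg G u = dg G w → ¬ Hi G D u → 2 ≤ dg G u →
        ∃ e ∈ edges G, u ∈ e ∧ ∀ e' ∈ edges G, w ∈ e' → R (own e) (own e'))

/-- **KA1** (colours and fine labels, when the numbers of pairs are multiples of `q`). `q = 2 ^ (2 * (8 * D ^ 2))`, `m = |edges G|`, `Q = m / (4 q)`, `r = m - 4 q Q < 4 q`.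

Proof. `S` = set of single edges (edges of no pair), `Ω = ι ⊕ S`, `own (e0 i) = own (e1 i) = inl i`, `own e = inr e` for `e ∈ S` (arbitrary on non-edges; if `Ω` is empty there are no edges and all counts are 0 = Q).
Let `q a`, `q b` be the numbers of pairs of type A and B (`a, b ≤ Q`), `r_f = min q (r - q f)` (truncated subtraction) for `f = 0, 1, 2, 3`, so that `∑ r_f = r` and `r_f ≤ q`. `|S| = m - 2 q a - 2 q b = q (Q - a) + q (Q - a) + q (Q - b) + q (Q - b) + r`,
so `S` can be split into `S_0, S_1, S_2, S_3` with `|S_0| = q (Q - a) + r_0`, `|S_1| = q (Q - a) + r_1`, `|S_2| = q (Q - b) + r_2`, `|S_3| = q (Q - b) + r_3`. `φ = f` on `S_f`, and the defaults on the pairs.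
CBL for the pairs of type A (`n = a`, `r = 0`), of type B, and for `S_0, ..., S_3`; together a block map on `Ω` with values in `Fin 6 × ℕ`, all blocks of size at most `q`. SCO with `Δ = 8 D^2` and
`R` from GAM gives `κ' : Ω → Fin q` injective on blocks and proper; `κ e = κ' (own e)`. Counts: `num k 0 = #{pairs of type A with colour k} + #{S_0, colour k}` is `a + (Q - a)` or one more, etc. Low: let `e` be from GAM; no edge `e'` at `w` has the colour
`k = κ e`, but `e ∋ u` has it: `deg' u k ≥ 1 > 0 = deg' w k`. -/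
def Ka1Stmt : Prop :=
  ∀ (V : Type) [Fintype V] (G : SimpleGraph V) (D : ℕ) (ι : Type) [Fintype ι] (P : Prs G D ι)
    (q a b : ℕ), q = 2 ^ (2 * (8 * D ^ 2)) →
    cnt (fun i => P.ty i = true) = q * a → cnt (fun i => P.ty i = false) = q * b →
    a ≤ (edges G).card / (4 * q) → b ≤ (edges G).card / (4 * q) →
    ∃ (κ : Sym2 V → ℕ) (φ : Sym2 V → Fin 4), (∀ e, κ e < q) ∧ (∀ i, κ (P.e0 i) = κ (P.e1 i)) ∧
      (∀ i, φ (P.e0 i) = (if P.ty i then 0 else 2) ∧ φ (P.e1 i) = (if P.ty i then 1 else 3)) ∧
      (∀ k < q, ∀ f, (edges G).card / (4 * q) ≤ num G κ φ k f ∧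
        num G κ φ k f ≤ (edges G).card / (4 * q) + 1) ∧
      (∀ u w, G.Adj u w → dg G u = dg G w → ¬ Hi G D u → 2 ≤ dg G u →
        ∃ k, deg' G κ u k ≠ deg' G κ w k)

/-- **KAP** (colours and fine labels). Same conclusion as KA1 for all families with `100 |ι| ≤ m`, `m` large.

Proof. Choose `nA, nB < q` such that `cnt (ty = true) + nA = q a` and `cnt (ty = false) + nB = q b`. `2 |ι| + 4 q + 2 D^2 ≤ m / 50 + m / 25 + ... ≤ m`: EXT applies. `q a ≤ m / 100 + q` and
`q (m / (4 q)) ≥ m / 4 - q ≥ m / 100 + q` because `m ≥ 100 q`; so `a ≤ m / (4 q)`; same for `b`. KA1 for the extended family; restrict along `f`. -/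
def KapStmt : Prop :=
  ∀ (V : Type) [Fintype V] (G : SimpleGraph V) (D : ℕ) (ι : Type) [Fintype ι] (P : Prs G D ι)
    (q : ℕ), q = 2 ^ (2 * (8 * D ^ 2)) → 100 * Fintype.card ι ≤ (edges G).card →
    100 * (q + D ^ 2 + 1) ≤ (edges G).card →
    ∃ (κ : Sym2 V → ℕ) (φ : Sym2 V → Fin 4), (∀ e, κ e < q) ∧ (∀ i, κ (P.e0 i) = κ (P.e1 i)) ∧
      (∀ i, φ (P.e0 i) = (if P.ty i then 0 else 2) ∧ φ (P.e1 i) = (if P.ty i then 1 else 3)) ∧
      (∀ k < q, ∀ f, (edges G).card / (4 * q) ≤ num G κ φ k f ∧
        num G κ φ k f ≤ (edges G).card / (4 * q) + 1) ∧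
      (∀ u w, G.Adj u w → dg G u = dg G w → ¬ Hi G D u → 2 ≤ dg G u →
        ∃ k, deg' G κ u k ≠ deg' G κ w k)

/-! ## Block 6: the labelling -/

/-- **SUM**. Proof: the map `w ↦ s(v, w)` is a bijection from the neighbours of `v` onto the edges at `v`. -/
def SumStmt : Prop :=
  ∀ (V : Type) [Fintype V] (G : SimpleGraph V) (ℓ : Sym2 V → ℕ) (v : V),
    vertexSum G ℓ v = ∑ e ∈ at' G v, ℓ e ∧ (at' G v).card = dg G v

/-- **DIG** (digits in base `B`).

Proof. Both sums are divisible by `B` and differ by less than `B`, so they are equal. Then compare digits: induction on `q` (or `Nat.ofDigits_inj_of_len_eq`, or look at the smallest `k` with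
`n1 k ≠ n2 k`: modulo `B ^ (k + 2)` the difference is `(n1 k - n2 k) B ^ (k + 1)`, not 0). -/
def DigStmt : Prop :=
  ∀ (q B : ℕ) (n1 n2 : ℕ → ℕ), (∀ k < q, n1 k < B) → (∀ k < q, n2 k < B) →
    ∑ k ∈ range q, n1 k * B ^ (k + 1) < ∑ k ∈ range q, n2 k * B ^ (k + 1) + B →
    ∑ k ∈ range q, n2 k * B ^ (k + 1) < ∑ k ∈ range q, n1 k * B ^ (k + 1) + B →
    ∀ k < q, n1 k = n2 k

/-- **PRP** (properness). `ℓ e = K + B ^ (κ e + 1) + fv c (φ e)`.

Proof. SUM: the sum of `ℓ` at `v` is `K dg v + Λ v + Φ v` with `Λ v = ∑_{e ∋ v} B ^ (κ e + 1) = ∑_{k < q} deg' v k · B ^ (k + 1)` and `Φ v ≤ (4c + 2) dg v`; and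
`Λ v + Φ v ≤ R dg v` with `R = B ^ q + 4c + 2`. Let `u, v` be adjacent. (a) `dg u < dg v`, `u` low: `sum u ≤ (K + R) dg u < K dg u + K ≤ K dg v ≤ sum v` since `K > D R ≥ R dg u`. (b) `dg u < dg v`, both high: if `dg v ≤ 2 dg u` they are comparable;
otherwise `sum u ≤ (K + R) dg u ≤ 2 K dg u < K dg v ≤ sum v` (as `R ≤ K`, `dg u ≥ 1`, `K ≥ 1`). (c) `dg u = dg v`, high: comparable. (d) `dg u = dg v = n`, low: `n = 1` is impossible (then `{u, v}` would be a component `K2`: `Nice.exists_other` of
Helper51_Equitable.Nice gives a second neighbour of `u` or of `v`); `n ≥ 2`: if the sums were equal then `|Λ u - Λ v| = |Φ u - Φ v| ≤ (4c + 2) n < B`, all `deg' ≤ n < B`, so by DIG `deg' u k = deg' v k` for all `k < q` (for `k ≥ q` both are 0), contradiction. (`dg u ≥ 1` as `u` has a neighbour.) -/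
def PrpStmt : Prop :=
  ∀ (V : Type) [Fintype V] (G : SimpleGraph V) (c D q B K : ℕ) (κ : Sym2 V → ℕ)
    (φ : Sym2 V → Fin 4), Nice G → 1 ≤ D → D * (4 * c + 3) < B →
    (D + 1) * (B ^ q + 4 * c + 3) ≤ K → (∀ e, κ e < q) →
    (∀ u w, G.Adj u w → dg G u = dg G w → ¬ Hi G D u → 2 ≤ dg G u →
      ∃ k, deg' G κ u k ≠ deg' G κ w k) →
    (∀ u v, Comp G D u v → vertexSum G (fun e => K + B ^ (κ e + 1) + fv c (φ e)) u ≠
      vertexSum G (fun e => K + B ^ (κ e + 1) + fv c (φ e)) v) →
    ∀ u v, G.Adj u v → vertexSum G (fun e => K + B ^ (κ e + 1) + fv c (φ e)) u ≠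
      vertexSum G (fun e => K + B ^ (κ e + 1) + fv c (φ e)) v

/-- **EQU** (range and equitable).

Proof. The values `K + B ^ (k + 1) + fv c f` for different `(k, f)` are different: for the same `k` because the `fv` are different (`c ≥ 1`), for different `k` because
`B ^ (k + 1)` and `B ^ (k' + 1)` differ by at least `B ^ 2 - B ≥ B > 4c + 2`. So `nb G ℓ l = num k f` if `l` is the value of `(k, f)` with `k < q`, and every label which is used on an edge is such a
value. Range: `1 ≤ K + ... ≤ K + B ^ q + 4c + 2`. -/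
def EquStmt : Prop :=
  ∀ (V : Type) [Fintype V] (G : SimpleGraph V) (c q B K Q : ℕ) (κ : Sym2 V → ℕ)
    (φ : Sym2 V → Fin 4), 1 ≤ c → 4 * c + 3 < B → (∀ e, κ e < q) →
    (∀ k < q, ∀ f, Q ≤ num G κ φ k f ∧ num G κ φ k f ≤ Q + 1) →
    (∀ e ∈ G.edgeSet, 1 ≤ K + B ^ (κ e + 1) + fv c (φ e) ∧
      K + B ^ (κ e + 1) + fv c (φ e) ≤ K + B ^ q + 4 * c + 2) ∧
    ∀ l l', 0 < nb G (fun e => K + B ^ (κ e + 1) + fv c (φ e)) l →
      0 < nb G (fun e => K + B ^ (κ e + 1) + fv c (φ e)) l' →
      nb G (fun e => K + B ^ (κ e + 1) + fv c (φ e)) l ≤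
        nb G (fun e => K + B ^ (κ e + 1) + fv c (φ e)) l' + 1

/-- **SML** (few edges: distinct powers of 2).

Proof. Number the edges by `0, ..., m - 1` (`Finset.equivFin`), label `2 ^ i` (`2 ^ i ≤ 2 ^ m`), any value off the edges. Every label used is used exactly once. Proper: by SUM the sum at `u` is `∑ 2 ^ i` over the edges at `u`; if the sums at adjacent `u, v` are equal then the sets of edges at `u` and
at `v` are equal (`Finset.sum_two_pow_lt`, `Nat.geomSum_injective` or `Finset.geomSum_injective`), so all edges at `u` contain `v` and conversely, which contradicts `Nice.exists_other`. -/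
def SmlStmt : Prop :=
  ∀ (V : Type) [Fintype V] (G : SimpleGraph V), Nice G →
    ∃ ℓ : Sym2 V → ℕ, IsEquitableProper G (2 ^ (edges G).card) ℓ

/-- **FIN** (the theorem). There is an absolute constant `k` such that every nice finite graph has an
equitable proper `k`-labelling. -/
def FinStmt : Prop :=
  ∃ k : ℕ, ∀ (V : Type) [Fintype V] (G : SimpleGraph V), Nice G →
    ∃ ℓ : Sym2 V → ℕ, IsEquitableProper G k ℓ

end Pool.Agent.EQC
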